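import Pool.Agent.H43.G.R_seed8.H300R2.EC.Defs
import Pool.Agent.H43.G.R_seed8.H769R2.QG.QM
import Pool.Agent.H43.G.R_seed8.H386R2.Artin.BadCount

/-!
The large sieve for real characters applied to the `k`-th power of a short sum over primes.
-/

set_option autoImplicit false

namespace Pool.Agent.W80.EC

open Finset
open scoped Nat
open Pool.Agent.H300R2.EC
open Pool.Agent.Helper919 (XX XX_mul XX_one XX_abs_le XX_sum_bound)
open Pool.Agent.H378R2.QG
open Pool.Agent.H386R2.Artin.T1 (cc cc_le)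

lemma XX_prod (D : ℤ) {k : ℕ} (v : Fin k → ℕ) : XX D (∏ i, v i) = ∏ i, XX D (v i) := by
  have key : ∀ s : Finset (Fin k), XX D (∏ i ∈ s, v i) = ∏ i ∈ s, XX D (v i) := by
    intro s
    induction s using Finset.induction_on with
    | empty => simp [XX_one]
    | insert i s hi ih => rw [prod_insert hi, prod_insert hi, XX_mul, ih]
  exact key univ

lemma maps_Ioc (E : Finset ℕ) (U V k : ℕ) (hE : ∀ q ∈ E, q.Prime ∧ U < q ∧ q ≤ V) (hk : 1 ≤ k) :
    ∀ v ∈ Fintype.piFinset (fun _ : Fin k => E), ∏ i, v i ∈ Ioc (U ^ k) (V ^ k) := by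
  intro v hv
  rw [Fintype.mem_piFinset] at hv
  rw [mem_Ioc]
  constructor
  · have : Nonempty (Fin k) := ⟨⟨0, by omega⟩⟩
    calc U ^ k = ∏ _i : Fin k, U := by simp
      _ < ∏ i, v i := by
        rcases Nat.eq_zero_or_pos U with h | h
        · rw [h]
          rw [prod_const, card_univ, Fintype.card_fin, zero_pow (by omega)]
          exact Finset.prod_pos fun i _ => (hE _ (hv i)).1.pos
        · exact Finset.prod_lt_prod_of_nonempty (fun i _ => h) (fun i _ => (hE _ (hv i)).2.1)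
            univ_nonempty
  · calc ∏ i, v i ≤ ∏ _i : Fin k, V := prod_le_prod' fun i _ => (hE _ (hv i)).2.2
      _ = V ^ k := by simp

/-- the sum over the primes -/
noncomputable def TE (E : Finset ℕ) (D : ℤ) : ℝ := ∑ p ∈ E, XX D p / p

lemma TE_pow (E : Finset ℕ) (U V k : ℕ) (hE : ∀ q ∈ E, q.Prime ∧ U < q ∧ q ≤ V) (hk : 1 ≤ k)
    (D : ℤ) : (TE E D) ^ k = ∑ n ∈ Ioc (U ^ k) (V ^ k), (cc E k n : ℝ) / n * XX D n := by
  have h1 : (TE E D) ^ k =
      ∑ v ∈ Fintype.piFinset (fun _ : Fin k => E), ∏ i, (XX D (v i) / (v i : ℝ)) := by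
    unfold TE
    have := Finset.prod_univ_sum (fun _ : Fin k => E) (fun _ (q : ℕ) => XX D q / (q : ℝ))
    rw [← this]
    simp
  have h2 : ∀ v ∈ Fintype.piFinset (fun _ : Fin k => E),
      ∏ i, (XX D (v i) / (v i : ℝ)) = XX D (∏ i, v i : ℕ) / ((∏ i, v i : ℕ) : ℝ) := by
    intro v _
    rw [XX_prod, prod_div_distrib, Nat.cast_prod]
  rw [h1, sum_congr rfl h2, ← Finset.sum_fiberwise_of_maps_to (maps_Ioc E U V k hE hk)]
  apply sum_congr rfl
  intro n _
  rw [sum_congr rfl (g := fun _ => XX D n / (n : ℝ))]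
  · rw [sum_const, nsmul_eq_mul]
    unfold cc
    ring
  · intro v hv
    rw [mem_filter] at hv
    rw [hv.2]

lemma cc_harm (E : Finset ℕ) (U V k : ℕ) (hE : ∀ q ∈ E, q.Prime ∧ U < q ∧ q ≤ V) (hk : 1 ≤ k)
    (h1 : ∑ p ∈ E, (1 : ℝ) / p ≤ 1) :
    ∑ n ∈ Ioc (U ^ k) (V ^ k), ((cc E k n : ℝ)) ^ 2 / n ≤ (k ! : ℝ) := by
  have e1 : ∑ n ∈ Ioc (U ^ k) (V ^ k), (cc E k n : ℝ) / n = (∑ p ∈ E, (1 : ℝ) / p) ^ k := by
    have h1 : (∑ p ∈ E, (1 : ℝ) / p) ^ k =
        ∑ v ∈ Fintype.piFinset (fun _ : Fin k => E), ∏ i, ((1 : ℝ) / (v i : ℝ)) := by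
      have := Finset.prod_univ_sum (fun _ : Fin k => E) (fun _ (q : ℕ) => (1 : ℝ) / (q : ℝ))
      rw [← this]
      simp
    have h2 : ∀ v ∈ Fintype.piFinset (fun _ : Fin k => E),
        ∏ i, ((1 : ℝ) / (v i : ℝ)) = 1 / ((∏ i, v i : ℕ) : ℝ) := by
      intro v _
      rw [prod_div_distrib, Nat.cast_prod, prod_const_one]
    rw [h1, sum_congr rfl h2, ← Finset.sum_fiberwise_of_maps_to (maps_Ioc E U V k hE hk)]
    apply sum_congr rfl
    intro n _
    rw [sum_congr rfl (g := fun _ => (1 : ℝ) / (n : ℝ))]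
    · rw [sum_const, nsmul_eq_mul]
      unfold cc
      ring
    · intro v hv
      rw [mem_filter] at hv
      rw [hv.2]
  have e2 : (∑ p ∈ E, (1 : ℝ) / p) ^ k ≤ 1 :=
    pow_le_one₀ (sum_nonneg fun p _ => by positivity) h1
  calc ∑ n ∈ Ioc (U ^ k) (V ^ k), ((cc E k n : ℝ)) ^ 2 / n
      ≤ ∑ n ∈ Ioc (U ^ k) (V ^ k), (k ! : ℝ) * ((cc E k n : ℝ) / n) := by
        apply sum_le_sum
        intro n _
        have : (cc E k n : ℝ) ≤ (k ! : ℝ) := by
          exact_mod_cast cc_le E k n fun q hq => (hE q hq).1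
        rw [sq, mul_div_assoc]
        exact mul_le_mul_of_nonneg_right this (by positivity)
    _ = (k ! : ℝ) * (∑ p ∈ E, (1 : ℝ) / p) ^ k := by rw [← mul_sum, e1]
    _ ≤ (k ! : ℝ) * 1 := mul_le_mul_of_nonneg_left e2 (by positivity)
    _ = _ := mul_one _

lemma abel_abs (f : ℕ → ℝ) (B : ℝ) (hB : ∀ N, |∑ d ∈ Ioc 0 N, f d| ≤ B) (U V : ℕ) (hU : 1 ≤ U)
    (hUV : U ≤ V) : |∑ n ∈ Ioc U V, f n / n| ≤ 2 * B / U := by
  rw [abs_le]
  constructor
  · have h := QMx.abel' (fun n => - f n) B (fun N => by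
      rw [sum_neg_distrib, abs_neg]; exact hB N) U V hU hUV
    have h2 : ∑ n ∈ Ioc U V, (- f n) / (n : ℝ) = - ∑ n ∈ Ioc U V, f n / n := by
      rw [← sum_neg_distrib]
      apply sum_congr rfl
      intro n _
      ring
    rw [h2] at h
    linarith
  · exact QMx.abel' f B hB U V hU hUV

/-- large sieve for the `k`-th power of a block -/
theorem block_pow (M U V k : ℕ) (hU : 1 ≤ U) (hUV : U ≤ V) (hk : 1 ≤ k) (E : Finset ℕ)
    (hE : ∀ q ∈ E, q.Prime ∧ U < q ∧ q ≤ V) (h1 : ∑ p ∈ E, (1 : ℝ) / p ≤ 1)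
    (δ : ℝ) (hδ : 0 < δ) (hc : 16 * (k ! : ℝ) * (M : ℝ) ^ 2 ≤ δ ^ (2 * k) * (U : ℝ) ^ k)
    (S : Finset ℤ) (hS : ∀ a ∈ S, a ≠ 0 ∧ |a| ≤ M ∧ δ ≤ |TE E a|) :
    (S.card : ℝ) ≤ 2 * (k ! : ℝ) * (Real.sqrt M + 1) * (1 + k * Real.log V) / δ ^ (2 * k) := by
  classical
  set l : ℝ := 1 + k * Real.log V with hl
  have hV1 : 1 ≤ V := by omega
  have hlogV : 0 ≤ Real.log V := Real.log_natCast_nonneg V
  have hl1 : 1 ≤ l := by
    have : 0 ≤ (k : ℝ) * Real.log V := by positivity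
    linarith
  have hU0 : (0 : ℝ) < U := by exact_mod_cast hU
  have hUk : (0 : ℝ) < (U : ℝ) ^ k := by positivity
  set w : ℤ → ℝ := fun a => if 0 ≤ (TE E a) ^ k then 1 else -1 with hw
  have hwabs : ∀ a, w a * (TE E a) ^ k = |TE E a| ^ k := by
    intro a
    rw [← abs_pow]
    simp only [hw]
    split_ifs with h
    · rw [one_mul, abs_of_nonneg h]
    · rw [abs_of_neg (not_le.1 h)]; ring
  have hw1 : ∀ a, |w a| ≤ 1 := by
    intro a
    simp only [hw]
    split_ifs <;> simp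
  set c : ℕ → ℝ := fun n => ∑ a ∈ S, w a * XX a n with hcdef
  set s : ℝ := (S.card : ℝ) with hs
  have hs0 : 0 ≤ s := by positivity
  set I := Ioc (U ^ k) (V ^ k) with hI
  -- first moment
  have g1 : δ ^ k * s ≤ ∑ n ∈ I, (cc E k n : ℝ) / n * c n := by
    have e1 : ∑ a ∈ S, δ ^ k ≤ ∑ a ∈ S, w a * (TE E a) ^ k := by
      apply sum_le_sum
      intro a ha
      rw [hwabs]
      exact pow_le_pow_left₀ hδ.le (hS a ha).2.2 k
    rw [sum_const, nsmul_eq_mul] at e1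
    have e2 : ∑ a ∈ S, w a * (TE E a) ^ k = ∑ n ∈ I, (cc E k n : ℝ) / n * c n := by
      simp_rw [TE_pow E U V k hE hk, hcdef, mul_sum]
      rw [sum_comm]
      apply sum_congr rfl
      intro n _
      apply sum_congr rfl
      intro a _
      ring
    rw [e2] at e1
    linarith
  have g2 : (∑ n ∈ I, (cc E k n : ℝ) / n * c n) ^ 2 ≤ (k ! : ℝ) * ∑ n ∈ I, (c n) ^ 2 / n := by
    have e1 : (∑ n ∈ I, (cc E k n : ℝ) / n * c n) ^ 2 ≤
        (∑ n ∈ I, (cc E k n : ℝ) ^ 2 / n) * ∑ n ∈ I, (c n) ^ 2 / n := by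
      apply sum_sq_le_sum_mul_sum_of_sq_eq_mul
      · intro i _; positivity
      · intro i _; positivity
      · intro i _
        ring
    refine e1.trans (mul_le_mul_of_nonneg_right (cc_harm E U V k hE hk h1) ?_)
    exact sum_nonneg fun i _ => by positivity
  -- expand
  have g3 : ∑ n ∈ I, (c n) ^ 2 / (n : ℝ)
      = ∑ a ∈ S, ∑ b ∈ S, w a * w b * ∑ n ∈ I, XX (a * b) n / n := by
    have e1 : ∀ n : ℕ, (c n) ^ 2 / (n : ℝ) = ∑ a ∈ S, ∑ b ∈ S, w a * w b * (XX (a * b) n / n) := by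
      intro n
      rw [sq, hcdef]
      simp only
      rw [sum_mul_sum, sum_div]
      apply sum_congr rfl
      intro a _
      rw [sum_div]
      apply sum_congr rfl
      intro b _
      rw [← QMx.XX_mul_left]
      ring
    simp_rw [e1, mul_sum]
    rw [sum_comm]
    apply sum_congr rfl
    intro a _
    rw [sum_comm]
  have hUVk : U ^ k ≤ V ^ k := Nat.pow_le_pow_left hUV k
  have hUk1 : 1 ≤ U ^ k := Nat.one_le_pow _ _ hU
  have g4 : ∀ a ∈ S, ∑ b ∈ S, w a * w b * ∑ n ∈ I, XX (a * b) n / (n : ℝ)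
      ≤ (Real.sqrt M + 1) * l + s * (8 * (M : ℝ) ^ 2 / (U : ℝ) ^ k) := by
    intro a ha
    have e1 : ∀ b ∈ S, w a * w b * ∑ n ∈ I, XX (a * b) n / (n : ℝ)
        ≤ (if IsSquare (a * b) then l else 0) + 8 * (M : ℝ) ^ 2 / (U : ℝ) ^ k := by
      intro b hb
      have e0 : w a * w b * ∑ n ∈ I, XX (a * b) n / (n : ℝ) ≤
          |∑ n ∈ I, XX (a * b) n / (n : ℝ)| := by
        refine (le_abs_self _).trans ?_
        rw [abs_mul, abs_mul]
        calc |w a| * |w b| * |∑ n ∈ I, XX (a * b) n / (n : ℝ)|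
            ≤ 1 * 1 * |∑ n ∈ I, XX (a * b) n / (n : ℝ)| := by
              gcongr
              · exact hw1 a
              · exact hw1 b
          _ = _ := by ring
      refine e0.trans ?_
      split_ifs with hsq
      · have f1 : |∑ n ∈ I, XX (a * b) n / (n : ℝ)| ≤ l := by
          refine (abs_sum_le_sum_abs _ _).trans ?_
          have f0 := QMx.harm (V ^ k) (Nat.one_le_pow _ _ hV1) (U ^ k)
          have f3 : (1 : ℝ) + Real.log ((V ^ k : ℕ) : ℝ) = l := by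
            rw [hl]; push_cast; rw [Real.log_pow]
          rw [f3] at f0
          refine le_trans ?_ f0
          apply sum_le_sum
          intro n _
          rw [abs_div, abs_of_nonneg (by positivity : (0 : ℝ) ≤ n)]
          apply div_le_div_of_nonneg_right _ (by positivity)
          exact XX_abs_le _ _
        have f2 : (0 : ℝ) ≤ 8 * (M : ℝ) ^ 2 / (U : ℝ) ^ k := by positivity
        linarith
      · rw [zero_add]
        have hab : a * b ≠ 0 := mul_ne_zero (hS a ha).1 (hS b hb).1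
        have hbd : (((a * b).natAbs : ℕ) : ℝ) ≤ (M : ℝ) ^ 2 := by
          have g1 : (((a * b).natAbs : ℕ) : ℝ) = |(a : ℝ)| * |(b : ℝ)| := by
            rw [Nat.cast_natAbs]
            push_cast
            rw [abs_mul]
          have g2 : |(a : ℝ)| ≤ M := by exact_mod_cast (hS a ha).2.1
          have g3 : |(b : ℝ)| ≤ M := by exact_mod_cast (hS b hb).2.1
          rw [g1, sq]
          exact mul_le_mul g2 g3 (abs_nonneg _) (by positivity)
        have f1 := abel_abs (fun n => XX (a * b) n) (4 * (M : ℝ) ^ 2)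
          (fun N => (XX_sum_bound (a * b) hab hsq N).trans (by linarith))
          (U ^ k) (V ^ k) hUk1 hUVk
        refine f1.trans (le_of_eq ?_)
        push_cast
        ring
    refine (sum_le_sum e1).trans ?_
    rw [sum_add_distrib, sum_const, nsmul_eq_mul, ← sum_filter, sum_const, nsmul_eq_mul]
    have e2 := QMx.count_sq M a (hS a ha).1 S (fun b hb => ⟨(hS b hb).1, (hS b hb).2.1⟩)
    have e3 := mul_le_mul_of_nonneg_right e2 (by linarith : (0 : ℝ) ≤ l)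
    linarith
  have g5 : ∑ n ∈ I, (c n) ^ 2 / (n : ℝ)
      ≤ s * ((Real.sqrt M + 1) * l + s * (8 * (M : ℝ) ^ 2 / (U : ℝ) ^ k)) := by
    rw [g3]
    refine (sum_le_sum g4).trans ?_
    rw [sum_const, nsmul_eq_mul]
  have hkf : (0 : ℝ) < (k ! : ℝ) := by exact_mod_cast Nat.factorial_pos k
  have g6 : (δ ^ k * s) ^ 2 ≤
      (k ! : ℝ) * (s * ((Real.sqrt M + 1) * l + s * (8 * (M : ℝ) ^ 2 / (U : ℝ) ^ k))) := by
    have e1 : (δ ^ k * s) ^ 2 ≤ (∑ n ∈ I, (cc E k n : ℝ) / n * c n) ^ 2 :=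
      pow_le_pow_left₀ (by positivity) g1 2
    exact e1.trans (g2.trans (mul_le_mul_of_nonneg_left g5 hkf.le))
  have g7 : (k ! : ℝ) * (8 * (M : ℝ) ^ 2 / (U : ℝ) ^ k) ≤ δ ^ (2 * k) / 2 := by
    rw [← mul_div_assoc, div_le_iff₀ hUk]
    nlinarith
  have hδk : δ ^ (2 * k) = (δ ^ k) ^ 2 := by rw [mul_comm, pow_mul]
  rcases eq_or_lt_of_le hs0 with h0 | h0
  · rw [← h0]
    positivity
  · have h8 : δ ^ (2 * k) * s ≤ (k ! : ℝ) * (Real.sqrt M + 1) * l + δ ^ (2 * k) / 2 * s := by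
      have e1 : s * (δ ^ (2 * k) * s) ≤ s * ((k ! : ℝ) * (Real.sqrt M + 1) * l +
          ((k ! : ℝ) * (8 * (M : ℝ) ^ 2 / (U : ℝ) ^ k)) * s) := by
        rw [hδk]
        nlinarith [g6]
      have e2 := le_of_mul_le_mul_left e1 h0
      have e3 := mul_le_mul_of_nonneg_right g7 hs0
      linarith
    rw [le_div_iff₀ (by positivity)]
    nlinarith

end Pool.Agent.W80.EC
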