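import Pool.Agent.H43.G.R_pool_sql_team_seeded_f72693b1.W80.EC.Tail

/-!
The product over the primes: convergence and speed of convergence.
-/

set_option autoImplicit false

namespace Pool.Agent.W80.EC

open Finset Filter
open Pool.Agent.H300R2.EC

/-- logarithm of the product -/
noncomputable def Gl (a D : ℤ) (M N : ℕ) : ℝ :=
  ∑ p ∈ (Ioc M N).filter (fun p : ℕ => p.Prime ∧ p ≠ 2 ∧ ¬ (p : ℤ) ∣ a),
    Real.log (1 - (jacobiSym D p : ℝ) / (p - 1))

lemma jac_abs (D : ℤ) (p : ℕ) : |(jacobiSym D p : ℝ)| ≤ 1 := by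
  rcases jacobiSym.trichotomy D p with h | h | h <;> rw [h] <;> simp

lemma fac_abs (D : ℤ) (p : ℕ) (hp : p.Prime) (hp2 : p ≠ 2) :
    |(jacobiSym D p : ℝ) / (p - 1)| ≤ 1 / 2 := by
  have h3 : 3 ≤ p := by have := hp.two_le; omega
  have h3r : (3 : ℝ) ≤ p := by exact_mod_cast h3
  rw [abs_div, abs_of_pos (by linarith : (0 : ℝ) < p - 1), div_le_div_iff₀ (by linarith) (by norm_num)]
  have := jac_abs D p
  linarith

lemma fac_pos (D : ℤ) (p : ℕ) (hp : p.Prime) (hp2 : p ≠ 2) :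
    0 < 1 - (jacobiSym D p : ℝ) / (p - 1) := by
  have := (abs_le.1 (fac_abs D p hp hp2)).2
  linarith

lemma Pd_eq_exp (a D : ℤ) (M N : ℕ) : Pd a D M N = Real.exp (Gl a D M N) := by
  unfold Pd Gl
  rw [Real.exp_sum]
  apply prod_congr rfl
  intro p hp
  rw [mem_filter] at hp
  rw [Real.exp_log (fac_pos D p hp.2.1 hp.2.2.1)]

lemma Gl_add (a D : ℤ) {P Q R : ℕ} (h1 : P ≤ Q) (h2 : Q ≤ R) :
    Gl a D P R = Gl a D P Q + Gl a D Q R := by
  unfold Gl
  rw [← sum_union]
  · congr 1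
    rw [← filter_union]
    congr 1
    ext x
    simp only [mem_Ioc, mem_union]
    omega
  · rw [disjoint_left]
    intro x hx hx2
    rw [mem_filter, mem_Ioc] at hx hx2
    omega

lemma tele_nat (M N : ℕ) (hM : 1 ≤ M) (hMN : M ≤ N) :
    ∑ n ∈ Ioc M N, 1 / ((n : ℝ) * (n - 1)) ≤ 1 / M := by
  have key : ∑ n ∈ Ioc M N, 1 / ((n : ℝ) * (n - 1)) = 1 / (M : ℝ) - 1 / N := by
    induction N, hMN using Nat.le_induction with
    | base => simp
    | succ N hN ih =>
      have h1 : Ioc M (N + 1) = insert (N + 1) (Ioc M N) := by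
        ext x
        simp only [mem_Ioc, mem_insert]
        omega
      rw [h1, sum_insert (by simp), ih]
      have h2 : (0 : ℝ) < N := by exact_mod_cast (by omega : 0 < N)
      push_cast
      have h3 : (N : ℝ) + 1 - 1 = N := by ring
      have h4 : 1 / (((N : ℝ) + 1) * N) = 1 / N - 1 / (N + 1) := by
        field_simp
        ring
      rw [h3, h4]
      ring
  rw [key]
  have : (0 : ℝ) ≤ 1 / (N : ℝ) := by positivity
  linarith

lemma log_approx (x : ℝ) (hx : |x| ≤ 1 / 2) : |Real.log (1 - x) + x| ≤ 2 * x ^ 2 := by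
  have h := Real.abs_log_sub_add_sum_range_le (x := x) (by linarith) 1
  simp only [sum_range_one, zero_add, pow_one] at h
  norm_num at h
  rw [add_comm]
  refine h.trans ?_
  rw [div_le_iff₀ (by linarith), ]
  have : 0 ≤ x ^ 2 := sq_nonneg x
  nlinarith

/-- the bound for the logarithm of a partial product -/
theorem Gl_bound (a D : ℤ) (ha : a ≠ 0) (M N : ℕ) (hM : 1 ≤ M) (hMN : M ≤ N) :
    |Gl a D M N| ≤ |Sd D M N| + (a.natAbs.primeFactors.card : ℝ) / M + 4 / M := by
  classical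
  have hM0 : (0 : ℝ) < M := by exact_mod_cast hM
  set S := (Ioc M N).filter (fun p : ℕ => p.Prime ∧ p ≠ 2) with hS
  set S' := (Ioc M N).filter (fun p : ℕ => p.Prime ∧ p ≠ 2 ∧ ¬ (p : ℤ) ∣ a) with hS'
  set S'' := (Ioc M N).filter (fun p : ℕ => p.Prime ∧ p ≠ 2 ∧ (p : ℤ) ∣ a) with hS''
  have hSun : ∑ p ∈ S, (jacobiSym D p : ℝ) / p =
      ∑ p ∈ S', (jacobiSym D p : ℝ) / p + ∑ p ∈ S'', (jacobiSym D p : ℝ) / p := by
    rw [← sum_union]
    · congr 1
      ext x
      simp only [hS, hS', hS'', mem_filter, mem_union]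
      tauto
    · rw [disjoint_left]
      intro x hx hx2
      rw [mem_filter] at hx hx2
      tauto
  have e1 : Gl a D M N = ∑ p ∈ S', (Real.log (1 - (jacobiSym D p : ℝ) / (p - 1)) +
      (jacobiSym D p : ℝ) / (p - 1)) - ∑ p ∈ S', ((jacobiSym D p : ℝ) / (p - 1) -
      (jacobiSym D p : ℝ) / p) - Sd D M N + ∑ p ∈ S'', (jacobiSym D p : ℝ) / p := by
    have h1 : Sd D M N = ∑ p ∈ S, (jacobiSym D p : ℝ) / p := rfl
    rw [h1, hSun, sum_add_distrib, sum_sub_distrib]
    have h2 : Gl a D M N = ∑ p ∈ S', Real.log (1 - (jacobiSym D p : ℝ) / (p - 1)) := rfl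
    rw [h2]
    ring
  have hpp : ∀ p ∈ S', p.Prime ∧ p ≠ 2 ∧ 3 ≤ p := by
    intro p hp
    rw [hS', mem_filter] at hp
    have := hp.2.1.two_le
    exact ⟨hp.2.1, hp.2.2.1, by have := hp.2.2.1; omega⟩
  have b1 : |∑ p ∈ S', (Real.log (1 - (jacobiSym D p : ℝ) / (p - 1)) +
      (jacobiSym D p : ℝ) / (p - 1))| ≤ 3 / M := by
    calc |∑ p ∈ S', (Real.log (1 - (jacobiSym D p : ℝ) / (p - 1)) +
          (jacobiSym D p : ℝ) / (p - 1))|
        ≤ ∑ p ∈ S', |Real.log (1 - (jacobiSym D p : ℝ) / (p - 1)) +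
          (jacobiSym D p : ℝ) / (p - 1)| := abs_sum_le_sum_abs _ _
      _ ≤ ∑ p ∈ S', 3 * (1 / ((p : ℝ) * (p - 1))) := by
          apply sum_le_sum
          intro p hp
          obtain ⟨h1, h2, h3⟩ := hpp p hp
          refine (log_approx _ (fac_abs D p h1 h2)).trans ?_
          have h3r : (3 : ℝ) ≤ p := by exact_mod_cast h3
          have h4 : ((jacobiSym D p : ℝ) / (p - 1)) ^ 2 ≤ 1 / ((p : ℝ) - 1) ^ 2 := by
            rw [div_pow]
            have h5 : (jacobiSym D p : ℝ) ^ 2 ≤ 1 := by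
              rw [← sq_abs]
              have := jac_abs D p
              have h6 := abs_nonneg (jacobiSym D p : ℝ)
              nlinarith
            gcongr
          have h6 : 2 * (1 / ((p : ℝ) - 1) ^ 2) ≤ 3 * (1 / ((p : ℝ) * (p - 1))) := by
            have h7 : (0 : ℝ) < p - 1 := by linarith
            rw [mul_one_div, mul_one_div, div_le_div_iff₀ (by positivity) (by positivity)]
            nlinarith
          linarith
      _ ≤ ∑ p ∈ Ioc M N, 3 * (1 / ((p : ℝ) * (p - 1))) := by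
          apply sum_le_sum_of_subset_of_nonneg (filter_subset _ _)
          intro p hp _
          rw [mem_Ioc] at hp
          have h1 : (1 : ℝ) < p := by exact_mod_cast (by omega : 1 < p)
          have h2 : (0 : ℝ) < p - 1 := by linarith
          positivity
      _ = 3 * ∑ p ∈ Ioc M N, 1 / ((p : ℝ) * (p - 1)) := by rw [mul_sum]
      _ ≤ 3 * (1 / M) := by
          gcongr
          exact tele_nat M N hM hMN
      _ = 3 / M := by ring
  have b2 : |∑ p ∈ S', ((jacobiSym D p : ℝ) / (p - 1) - (jacobiSym D p : ℝ) / p)| ≤ 1 / M := by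
    calc |∑ p ∈ S', ((jacobiSym D p : ℝ) / (p - 1) - (jacobiSym D p : ℝ) / p)|
        ≤ ∑ p ∈ S', |(jacobiSym D p : ℝ) / (p - 1) - (jacobiSym D p : ℝ) / p| :=
          abs_sum_le_sum_abs _ _
      _ ≤ ∑ p ∈ S', 1 / ((p : ℝ) * (p - 1)) := by
          apply sum_le_sum
          intro p hp
          obtain ⟨h1, h2, h3⟩ := hpp p hp
          have h3r : (3 : ℝ) ≤ p := by exact_mod_cast h3
          have h7 : (0 : ℝ) < p - 1 := by linarith
          have h8 : (jacobiSym D p : ℝ) / (p - 1) - (jacobiSym D p : ℝ) / p =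
              (jacobiSym D p : ℝ) * (1 / ((p : ℝ) * (p - 1))) := by
            field_simp
            ring
          rw [h8, abs_mul, abs_of_pos (by positivity : 0 < 1 / ((p : ℝ) * (p - 1)))]
          have h9 : 0 < 1 / ((p : ℝ) * (p - 1)) := by positivity
          have := jac_abs D p
          nlinarith
      _ ≤ ∑ p ∈ Ioc M N, 1 / ((p : ℝ) * (p - 1)) := by
          apply sum_le_sum_of_subset_of_nonneg (filter_subset _ _)
          intro p hp _
          rw [mem_Ioc] at hp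
          have h1 : (1 : ℝ) < p := by exact_mod_cast (by omega : 1 < p)
          have h2 : (0 : ℝ) < p - 1 := by linarith
          positivity
      _ ≤ 1 / M := tele_nat M N hM hMN
  have b3 : |∑ p ∈ S'', (jacobiSym D p : ℝ) / p| ≤ (a.natAbs.primeFactors.card : ℝ) / M := by
    have hsub : S'' ⊆ a.natAbs.primeFactors := by
      intro p hp
      rw [hS'', mem_filter] at hp
      rw [Nat.mem_primeFactors]
      refine ⟨hp.2.1, ?_, ?_⟩
      · exact Int.natCast_dvd.1 hp.2.2.2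
      · exact Int.natAbs_ne_zero.2 ha
    calc |∑ p ∈ S'', (jacobiSym D p : ℝ) / p| ≤ ∑ p ∈ S'', |(jacobiSym D p : ℝ) / p| :=
          abs_sum_le_sum_abs _ _
      _ ≤ ∑ p ∈ S'', 1 / (M : ℝ) := by
          apply sum_le_sum
          intro p hp
          rw [hS'', mem_filter, mem_Ioc] at hp
          have h1 : (M : ℝ) ≤ p := by exact_mod_cast hp.1.1.le
          have h2 : (0 : ℝ) < p := lt_of_lt_of_le hM0 h1
          rw [abs_div, abs_of_pos h2]
          exact div_le_div₀ zero_le_one (jac_abs D p) hM0 h1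
      _ = (S''.card : ℝ) / M := by rw [sum_const, nsmul_eq_mul]; ring
      _ ≤ (a.natAbs.primeFactors.card : ℝ) / M := by
          gcongr
  rw [e1]
  have t1 : |∑ p ∈ S', (Real.log (1 - (jacobiSym D p : ℝ) / (p - 1)) +
      (jacobiSym D p : ℝ) / (p - 1)) - ∑ p ∈ S', ((jacobiSym D p : ℝ) / (p - 1) -
      (jacobiSym D p : ℝ) / p) - Sd D M N + ∑ p ∈ S'', (jacobiSym D p : ℝ) / p| ≤
      |∑ p ∈ S', (Real.log (1 - (jacobiSym D p : ℝ) / (p - 1)) +
      (jacobiSym D p : ℝ) / (p - 1))| + |∑ p ∈ S', ((jacobiSym D p : ℝ) / (p - 1) -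
      (jacobiSym D p : ℝ) / p)| + |Sd D M N| + |∑ p ∈ S'', (jacobiSym D p : ℝ) / p| := by
    refine (abs_add_le _ _).trans (add_le_add_left ?_ _)
    refine (abs_sub _ _).trans (add_le_add_left ?_ _)
    exact abs_sub _ _
  refine t1.trans ?_
  have e2 : (4 : ℝ) / M = 3 / M + 1 / M := by ring
  rw [e2]
  linarith

/-- the partial products of the constant converge to a positive limit -/
theorem conv_prod (a D : ℤ) (ha : a ≠ 0) (hD : ¬ IsSquare D) : ∃ l : ℝ,
    Tendsto (fun N : ℕ => Gl a D 0 N) atTop (nhds l) := by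
  apply cauchySeq_tendsto_of_complete
  rw [Metric.cauchySeq_iff']
  intro ε hε
  obtain ⟨M0, hM0⟩ := Sd_tendsto D hD (ε / 4) (by linarith)
  obtain ⟨M1, hM1⟩ := exists_nat_gt (4 * ((a.natAbs.primeFactors.card : ℝ) + 4) / ε)
  refine ⟨max (max M0 M1) 1, fun N hN => ?_⟩
  set M := max (max M0 M1) 1 with hM
  have h1 : M0 ≤ M := le_trans (le_max_left _ _) (le_max_left _ _)
  have h2 : M1 ≤ M := le_trans (le_max_right _ _) (le_max_left _ _)
  have h3 : 1 ≤ M := le_max_right _ _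
  have hMr : (0 : ℝ) < M := by exact_mod_cast h3
  rw [Real.dist_eq, Gl_add a D (Nat.zero_le M) hN, add_sub_cancel_left]
  refine (Gl_bound a D ha M N h3 hN).trans_lt ?_
  have h4 := hM0 M h1 N hN
  have h5 : ((a.natAbs.primeFactors.card : ℝ)) / M + 4 / M ≤ ε / 4 := by
    rw [← add_div, div_le_iff₀ hMr]
    have h6 : 4 * ((a.natAbs.primeFactors.card : ℝ) + 4) / ε ≤ M :=
      hM1.le.trans (by exact_mod_cast h2)
    rw [div_le_iff₀ hε] at h6
    linarith
  linarith

/-- the product over the primes in `range N` as in the conjecture -/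
noncomputable def Pc (a D : ℤ) (N : ℕ) : ℝ :=
  ∏ p ∈ (range N).filter (fun p : ℕ => Nat.Prime p ∧ 2 < p ∧ ¬ ((p : ℤ) ∣ a)),
    (1 - ((jacobiSym D p : ℤ) : ℝ) / ((p : ℝ) - 1))

lemma Pc_eq (a D : ℤ) (N : ℕ) : Pc a D (N + 1) = Pd a D 0 N := by
  unfold Pc Pd
  apply prod_congr _ (fun _ _ => rfl)
  ext p
  simp only [mem_filter, mem_range, mem_Ioc]
  constructor
  · rintro ⟨h1, h2, h3, h4⟩
    exact ⟨⟨h2.pos, by omega⟩, h2, by omega, h4⟩
  · rintro ⟨⟨h0, h1⟩, h2, h3, h4⟩
    have := h2.two_le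
    exact ⟨by omega, h2, by omega, h4⟩

/-- the constant, with the speed of convergence -/
theorem const_close (a D : ℤ) (ha : a ≠ 0) (hD : ¬ IsSquare D) : ∃ c : ℝ, 0 < c ∧
    Tendsto (fun N : ℕ => Pc a D N) atTop (nhds c) ∧
    ∀ (z : ℕ) (s : ℝ), 1 ≤ z → (∀ i : ℕ, |Sd D z (z * 2 ^ i)| ≤ s) →
      s + (a.natAbs.primeFactors.card : ℝ) / z + 4 / z ≤ 1 →
      |Pd a D 0 z - c| ≤ 2 * (s + (a.natAbs.primeFactors.card : ℝ) / z + 4 / z) * c := by
  obtain ⟨l, hl⟩ := conv_prod a D ha hD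
  refine ⟨Real.exp l, Real.exp_pos l, ?_, ?_⟩
  · have h1 : Tendsto (fun N : ℕ => Pc a D (N + 1)) atTop (nhds (Real.exp l)) := by
      simp_rw [Pc_eq, Pd_eq_exp]
      exact (Real.continuous_exp.tendsto l).comp hl
    exact (tendsto_add_atTop_iff_nat 1).1 h1
  · intro z s hz hs h1
    set T := s + (a.natAbs.primeFactors.card : ℝ) / z + 4 / z with hT
    have h2 : |Gl a D 0 z - l| ≤ T := by
      have hsub : Tendsto (fun i : ℕ => z * 2 ^ i) atTop atTop := by
        apply tendsto_atTop_mono (f := fun i : ℕ => i)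
        · intro i
          calc i ≤ 2 ^ i := Nat.lt_two_pow_self.le
            _ ≤ z * 2 ^ i := Nat.le_mul_of_pos_left _ (by omega)
        · exact tendsto_id
      have h3 : Tendsto (fun i : ℕ => |Gl a D 0 z - Gl a D 0 (z * 2 ^ i)|) atTop
          (nhds |Gl a D 0 z - l|) :=
        (tendsto_const_nhds.sub (hl.comp hsub)).abs
      apply le_of_tendsto h3
      filter_upwards with i
      have h4 : z ≤ z * 2 ^ i := Nat.le_mul_of_pos_right _ (by positivity)
      rw [Gl_add a D (Nat.zero_le z) h4, abs_sub_comm, add_sub_cancel_left]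
      refine (Gl_bound a D ha z _ hz h4).trans ?_
      have := hs i
      linarith
    rw [Pd_eq_exp]
    have h5 : Real.exp (Gl a D 0 z) - Real.exp l = (Real.exp (Gl a D 0 z - l) - 1) * Real.exp l := by
      rw [sub_mul, ← Real.exp_add]; ring_nf
    rw [h5, abs_mul, abs_of_pos (Real.exp_pos l)]
    gcongr
    refine (Real.abs_exp_sub_one_le (by linarith)).trans ?_
    linarith

end Pool.Agent.W80.EC
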