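import Pool.Agent.H43.G.R_pool_sql_team_seeded_f72693b1.W80.EC.Count

/-!
The Hardy-Littlewood formula with the exact constant for almost all quadratic polynomials.
-/

set_option autoImplicit false

namespace Pool.Agent.W80.EC

open Finset Polynomial Filter
open Pool.Agent.H442R2.EHI (evt_log_pow evt_log_ge)
open Pool.Agent.H300R2.BH
open Pool.Agent.H300R2.FB
open Pool.Agent.H300R2.EC

/-- the factor at the common odd prime factors of `a` and `b` -/
noncomputable def Gf (a b : ℤ) : ℝ :=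
  ∏ p ∈ (Nat.primeFactors (Int.gcd a b)).filter (fun p : ℕ => 2 < p), ((p : ℝ) / ((p : ℝ) - 1))

/-- the factor at two -/
noncomputable def ep (a b : ℤ) : ℝ := if Even (a + b) then (2 : ℝ) else 1

lemma ep_ge (a b : ℤ) : 1 ≤ ep a b := by unfold ep; split_ifs <;> norm_num

lemma prod_exp_bound (A : Finset ℕ) (z : ℕ) (hz : 1 ≤ z) (hA : ∀ p ∈ A, z < p) :
    1 ≤ ∏ p ∈ A, ((p : ℝ) / ((p : ℝ) - 1)) ∧
    ∏ p ∈ A, ((p : ℝ) / ((p : ℝ) - 1)) ≤ Real.exp ((A.card : ℝ) / z) := by
  have hz0 : (1 : ℝ) ≤ z := by exact_mod_cast hz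
  have hp1 : ∀ p ∈ A, (z : ℝ) ≤ (p : ℝ) - 1 := by
    intro p hp
    have : (z : ℝ) + 1 ≤ p := by exact_mod_cast hA p hp
    linarith
  constructor
  · have h := Finset.prod_le_prod (s := A) (f := fun _ => (1 : ℝ))
      (g := fun p : ℕ => ((p : ℝ) / ((p : ℝ) - 1))) (fun _ _ => zero_le_one) (fun p hp => by
        have := hp1 p hp
        rw [one_le_div (by linarith)]
        linarith)
    simpa using h
  · calc ∏ p ∈ A, ((p : ℝ) / ((p : ℝ) - 1)) ≤ ∏ _p ∈ A, Real.exp (1 / (z : ℝ)) := by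
          apply Finset.prod_le_prod
          · intro p hp
            have := hp1 p hp
            exact div_nonneg (by linarith) (by linarith)
          · intro p hp
            have h1 := hp1 p hp
            have h2 : (p : ℝ) / ((p : ℝ) - 1) = 1 / ((p : ℝ) - 1) + 1 := by
              have : (p : ℝ) - 1 ≠ 0 := by linarith
              field_simp
              ring
            rw [h2]
            refine le_trans ?_ (Real.add_one_le_exp _)
            have h3 : 1 / ((p : ℝ) - 1) ≤ 1 / (z : ℝ) := one_div_le_one_div_of_le (by linarith) h1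
            linarith
      _ = Real.exp ((A.card : ℝ) / z) := by
          rw [prod_const, ← Real.exp_nat_mul]
          congr 1
          ring

lemma card_common (a b : ℤ) (ha : a ≠ 0) :
    (Nat.primeFactors (Int.gcd a b)).card ≤ a.natAbs.primeFactors.card := by
  apply card_le_card
  apply Nat.primeFactors_mono
  · have h := Int.gcd_dvd_left (a := a) (b := b)
    exact Int.natCast_dvd.1 h
  · exact Int.natAbs_ne_zero.2 ha

lemma Pg_split (a b : ℤ) (ha : a ≠ 0) (z : ℕ) : Gf a b = Pg a b 0 z *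
    ∏ p ∈ ((Nat.primeFactors (Int.gcd a b)).filter (fun p : ℕ => 2 < p)).filter (fun p => z < p),
      ((p : ℝ) / ((p : ℝ) - 1)) := by
  have hg : Int.gcd a b ≠ 0 := by
    rw [Ne, Int.gcd_eq_zero_iff]
    tauto
  have h1 : Pg a b 0 z = ∏ p ∈ ((Nat.primeFactors (Int.gcd a b)).filter
      (fun p : ℕ => 2 < p)).filter (fun p => ¬ z < p), ((p : ℝ) / ((p : ℝ) - 1)) := by
    unfold Pg
    apply prod_congr _ (fun _ _ => rfl)
    ext p
    simp only [mem_filter, mem_Ioc, Nat.mem_primeFactors]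
    constructor
    · rintro ⟨⟨h0, h1⟩, h2, h3, h4, h5⟩
      refine ⟨⟨⟨h2, ?_, hg⟩, ?_⟩, by omega⟩
      · exact_mod_cast Int.dvd_coe_gcd h4 h5
      · have := h2.two_le
        omega
    · rintro ⟨⟨⟨h1, h2, h3⟩, h4⟩, h5⟩
      have h6 : (p : ℤ) ∣ (Int.gcd a b : ℤ) := by exact_mod_cast h2
      exact ⟨⟨by omega, by omega⟩, h1, by omega, h6.trans (Int.gcd_dvd_left ..),
        h6.trans (Int.gcd_dvd_right ..)⟩
  rw [h1]
  unfold Gf
  rw [mul_comm, prod_filter_mul_prod_filter_not]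

lemma Pg_ge (a b : ℤ) (M N : ℕ) : 1 ≤ Pg a b M N := by
  unfold Pg
  have h := Finset.prod_le_prod (s := (Ioc M N).filter (fun p : ℕ => p.Prime ∧ p ≠ 2 ∧ (p : ℤ) ∣ a ∧
    (p : ℤ) ∣ b)) (f := fun _ => (1 : ℝ))
      (g := fun p : ℕ => ((p : ℝ) / ((p : ℝ) - 1))) (fun _ _ => zero_le_one) (fun p hp => by
        rw [mem_filter] at hp
        have : (1 : ℝ) < p := by exact_mod_cast hp.2.1.one_lt
        rw [one_le_div (by linarith)]
        linarith)
  simpa using h

lemma Pg_close (a b : ℤ) (ha : a ≠ 0) (z : ℕ) (hz : 1 ≤ z)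
    (h1 : (a.natAbs.primeFactors.card : ℝ) / z ≤ 1) :
    Pg a b 0 z ≤ Gf a b ∧
      Gf a b ≤ Pg a b 0 z * (1 + 2 * ((a.natAbs.primeFactors.card : ℝ) / z)) := by
  set A := ((Nat.primeFactors (Int.gcd a b)).filter (fun p : ℕ => 2 < p)).filter (fun p => z < p)
    with hA
  have hz0 : (0 : ℝ) < z := by exact_mod_cast hz
  obtain ⟨g1, g2⟩ := prod_exp_bound A z hz (fun p hp => (mem_filter.1 hp).2)
  have hcard : (A.card : ℝ) ≤ a.natAbs.primeFactors.card := by
    exact_mod_cast ((card_filter_le _ _).trans (card_filter_le _ _)).trans (card_common a b ha)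
  have hP := Pg_ge a b 0 z
  rw [Pg_split a b ha z, ← hA]
  constructor
  · nlinarith
  · apply mul_le_mul_of_nonneg_left _ (by linarith)
    refine g2.trans ?_
    have h2 : (A.card : ℝ) / z ≤ (a.natAbs.primeFactors.card : ℝ) / z := by gcongr
    have h3 : 0 ≤ (A.card : ℝ) / z := by positivity
    have h4 := (abs_le.1 (Real.abs_exp_sub_one_le (x := (A.card : ℝ) / z) (by
      rw [abs_of_nonneg h3]; linarith))).2
    rw [abs_of_nonneg h3] at h4
    linarith

lemma omega_bound (a : ℤ) (ha : a ≠ 0) (H : ℕ) (haH : |a| ≤ H) :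
    (a.natAbs.primeFactors.card : ℝ) ≤ 2 * Real.log H := by
  set n := a.natAbs with hn
  have hn0 : n ≠ 0 := Int.natAbs_ne_zero.2 ha
  have h1 : 2 ^ n.primeFactors.card ≤ n := by
    calc 2 ^ n.primeFactors.card ≤ ∏ p ∈ n.primeFactors, p :=
          Finset.pow_card_le_prod _ _ _ fun p hp => (Nat.prime_of_mem_primeFactors hp).two_le
      _ ≤ n := Nat.le_of_dvd (Nat.pos_of_ne_zero hn0) (Nat.prod_primeFactors_dvd n)
  have h2 : n ≤ H := by
    have : (n : ℤ) ≤ H := by rw [hn, Int.natCast_natAbs]; exact haH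
    exact_mod_cast this
  have h3 : (2 : ℝ) ^ n.primeFactors.card ≤ H := by exact_mod_cast h1.trans h2
  have h4 := Real.log_le_log (by positivity) h3
  rw [Real.log_pow] at h4
  have h5 := Real.log_two_gt_d9
  have h6 : (0 : ℝ) ≤ (n.primeFactors.card : ℝ) := Nat.cast_nonneg _
  nlinarith

open Classical in
/-- the formula with the exact constant, for all lengths -/
theorem mainK (ε : ℝ) (hε : 0 < ε) (U : ℕ) : ∃ B H0 : ℕ, ∀ H : ℕ, H0 ≤ H →
    ∃ Bad : Finset (ℤ × ℤ × ℤ), (Bad.card : ℝ) ≤ (H : ℝ) ^ 3 / Real.log H ^ U ∧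
      ∀ t ∈ Box H, t ∉ Bad → Int.gcd (Int.gcd t.1 t.2.1 : ℤ) t.2.2 = 1 → ¬ IsSquare (disc t) →
        ¬ (Even (t.1 + t.2.1) ∧ Even t.2.2) →
        (H : ℝ) < (t.1 : ℝ) * Real.log H ^ (U + 2) ∧
        ∃ c : ℝ, 0 < c ∧ Tendsto (fun N : ℕ => Pc t.1 (disc t) N) atTop (nhds c) ∧
          1 / (2 * Real.log H) ≤ ep t.1 t.2.1 * c * Gf t.1 t.2.1 ∧
          ∀ K : ℕ, (H : ℝ) ^ ε ≤ K → (K : ℝ) * Real.log H ^ B ≤ H →
          |pv (q2 t.1 t.2.1 t.2.2) K -
            ep t.1 t.2.1 * c * Gf t.1 t.2.1 * lF (q2 t.1 t.2.1 t.2.2) K| ≤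
            (ep t.1 t.2.1 * c * Gf t.1 t.2.1 * lF (q2 t.1 t.2.1 t.2.2) K) / Real.log H ^ U := by
  set V : ℕ := U + 4 with hV
  obtain ⟨E1, halm⟩ := almost ε hε (U + 2) (U + 4)
  set E : ℕ := max E1 (320 * (4 * V + 1)) + U + 10 with hE
  have hE1 : E1 ≤ E := by
    rw [hE]; have := le_max_left E1 (320 * (4 * V + 1)); omega
  have hE2 : 320 * (4 * V + 1) ≤ E := by
    rw [hE]; have := le_max_right E1 (320 * (4 * V + 1)); omega
  have hE3 : U + 10 ≤ E := by rw [hE]; omega
  clear_value V E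
  obtain ⟨B, H0, hB⟩ := halm E hE1
  have hev : ∀ᶠ H : ℕ in atTop, H0 ≤ H ∧
      (((Box H).filter (fun t => ¬ IsSquare (disc t) ∧ disc t ∈ Exc V E H)).card : ℝ) ≤
        (H : ℝ) ^ 3 / Real.log H ^ (U + 2) ∧
      (∀ D : ℤ, ¬ IsSquare D → D ∈ Dset (5 * H ^ 2) → D ∉ Exc V E H → ∀ i : ℕ,
        |Sd D ⌊Real.log H ^ E⌋₊ (⌊Real.log H ^ E⌋₊ * 2 ^ i)| ≤
          2 ^ (V + 1) / Real.log H ^ (V - 1)) ∧
      (∀ t ∈ Box H, (H : ℝ) < (t.1 : ℝ) * Real.log H ^ (U + 2) → ∀ K : ℕ, (H : ℝ) ^ ε ≤ K →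
        K ≤ H → (K : ℝ) / (8 * Real.log H) ≤ lF (q2 t.1 t.2.1 t.2.2) K) ∧
      (∀ a D : ℤ, 1 / Real.log H ≤ Pd a D 0 ⌊Real.log H ^ (E - 1 + 1)⌋₊) ∧
      (2 : ℝ) ^ (U + 12) ≤ Real.log H ∧ 100 ≤ Real.log H ∧ 1 ≤ H := by
    filter_upwards [eventually_ge_atTop H0, exc_triples V E (U + 2) hE2,
      tail_nonexc V E (by omega), lF_lower ε hε (U + 2), Pd_lower (E - 1),
      evt_log_ge (2 ^ (U + 12)), evt_log_ge 100, eventually_ge_atTop 1]
      with H h1 h2 h3 h4 h5 h6 h7 h8
    exact ⟨h1, h2, h3, h4, h5, h6, h7, h8⟩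
  obtain ⟨H3, hH3⟩ := eventually_atTop.mp hev
  refine ⟨B, H3, fun H hH => ?_⟩
  obtain ⟨hH0, hexc, htail, hlow, hPd, hL2, hL100, hH1⟩ := hH3 H hH
  rw [show E - 1 + 1 = E by omega] at hPd
  obtain ⟨Bad1, hBad1, hB1⟩ := hB H hH0
  set L := Real.log H with hL
  have hL0 : 0 < L := by linarith
  have hL1 : 1 ≤ L := by linarith
  have hHr : (1 : ℝ) ≤ H := by exact_mod_cast hH1
  have hHp : (0 : ℝ) < H := by linarith
  set z := ⌊L ^ E⌋₊ with hz
  set B2 := (Box H).filter (fun t => (t.1 : ℝ) * L ^ (U + 2) ≤ H) with hB2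
  set B3 := (Box H).filter (fun t => ¬ IsSquare (disc t) ∧ disc t ∈ Exc V E H) with hB3
  refine ⟨Bad1 ∪ B2 ∪ B3, ?_, ?_⟩
  · have h1 : ((Bad1 ∪ B2 ∪ B3).card : ℝ) ≤ (Bad1.card : ℝ) + B2.card + B3.card := by
      have h2 := card_union_le (Bad1 ∪ B2) B3
      have h3 := card_union_le Bad1 B2
      have h4 : (Bad1 ∪ B2 ∪ B3).card ≤ Bad1.card + B2.card + B3.card := by omega
      exact_mod_cast h4
    have h2 := small_lead H (U + 2) hH1 hL0
    rw [← hL, ← hB2] at h2
    refine h1.trans ?_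
    calc (Bad1.card : ℝ) + B2.card + B3.card
        ≤ (H : ℝ) ^ 3 / L ^ (U + 2) + 9 * (H : ℝ) ^ 3 / L ^ (U + 2) + (H : ℝ) ^ 3 / L ^ (U + 2) := by
          gcongr
      _ = 11 * (H : ℝ) ^ 3 / L ^ (U + 2) := by ring
      _ ≤ (H : ℝ) ^ 3 / L ^ U := by
          rw [div_le_div_iff₀ (by positivity) (by positivity), pow_add]
          have : 11 ≤ L ^ 2 := by nlinarith
          calc 11 * (H : ℝ) ^ 3 * L ^ U = (H : ℝ) ^ 3 * (L ^ U * 11) := by ring
            _ ≤ (H : ℝ) ^ 3 * (L ^ U * L ^ 2) := by gcongr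
  · intro t ht htB hgcd hsq hpar
    rw [mem_union, mem_union, not_or, not_or] at htB
    obtain ⟨⟨hn1, hn2⟩, hn3⟩ := htB
    have hlead : (H : ℝ) < (t.1 : ℝ) * L ^ (U + 2) := by
      by_contra hcon
      apply hn2
      rw [hB2, mem_filter]
      exact ⟨ht, not_lt.1 hcon⟩
    have hnexc : disc t ∉ Exc V E H := by
      intro hcon
      apply hn3
      rw [hB3, mem_filter]
      exact ⟨ht, hsq, hcon⟩
    refine ⟨hlead, ?_⟩
    have htb := (mem_Box H t).1 ht
    have ha0 : t.1 ≠ 0 := by have := htb.1.1; omega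
    obtain ⟨c, hc0, hclim, hcc⟩ := const_close t.1 (disc t) ha0 hsq
    -- parameters
    have hLE : L ^ (U + 10) ≤ L ^ E := pow_le_pow_right₀ hL1 hE3
    have hLE2 : 2 ≤ L ^ (U + 10) := by
      calc (2 : ℝ) ≤ L ^ 1 := by rw [pow_one]; linarith
        _ ≤ L ^ (U + 10) := pow_le_pow_right₀ hL1 (by omega)
    have hzl : L ^ (U + 10) / 2 ≤ z := by
      have h1 : L ^ E < z + 1 := Nat.lt_floor_add_one _
      linarith
    have hz1 : 1 ≤ z := by
      have : (1 : ℝ) ≤ z := by linarith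
      exact_mod_cast this
    have hz2 : 2 ≤ z := by
      have h2 : (2 : ℝ) ≤ z := by
        refine le_trans ?_ hzl
        have : 4 ≤ L ^ (U + 10) := by
          calc (4 : ℝ) ≤ L ^ 1 := by rw [pow_one]; linarith
            _ ≤ L ^ (U + 10) := pow_le_pow_right₀ hL1 (by omega)
        linarith
      exact_mod_cast h2
    have hzp : (0 : ℝ) < z := by exact_mod_cast hz1
    set ω : ℝ := (t.1.natAbs.primeFactors.card : ℝ) with hω
    have hω2 : ω ≤ 2 * L := omega_bound t.1 ha0 H (abs_le.2 ⟨by have := htb.1.1; omega, htb.1.2⟩)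
    have hω0 : 0 ≤ ω := Nat.cast_nonneg _
    set q : ℝ := 1 / (32 * L ^ U) with hq
    have hq0 : 0 < q := by positivity
    have hLU : 1 ≤ L ^ U := one_le_pow₀ hL1
    have hq32 : q ≤ 1 / 32 := by
      rw [hq]
      apply one_div_le_one_div_of_le (by norm_num)
      linarith
    have hs : (2 : ℝ) ^ (V + 1) / L ^ (V - 1) ≤ q := by
      rw [hq, div_le_div_iff₀ (by positivity) (by positivity), hV,
        show U + 4 - 1 = U + 3 by omega, one_mul]
      calc (2 : ℝ) ^ (U + 4 + 1) * (32 * L ^ U) = (2 ^ (U + 10)) * L ^ U := by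
            rw [show U + 10 = (U + 4 + 1) + 5 by ring, pow_add 2 (U + 4 + 1) 5]
            norm_num
            ring
        _ ≤ L * L ^ U := by
            gcongr
            refine le_trans ?_ hL2
            exact pow_le_pow_right₀ (by norm_num) (by omega)
        _ ≤ L ^ 3 * L ^ U := by
            gcongr
            nlinarith [pow_pos hL0 2]
        _ = L ^ (U + 3) := by ring
    have hLbig : 64 * (L + 4) ≤ L ^ 3 := by nlinarith [pow_pos hL0 2, sq_nonneg (L - 100)]
    have hωz : ω / z ≤ q := by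
      rw [hq, div_le_div_iff₀ hzp (by positivity), one_mul]
      calc ω * (32 * L ^ U) ≤ (2 * L) * (32 * L ^ U) := by gcongr
        _ = 64 * L * L ^ U := by ring
        _ ≤ (L ^ 3) * L ^ U := by gcongr; linarith
        _ ≤ L ^ (U + 10) / 2 := by
            rw [le_div_iff₀ (by norm_num)]
            calc L ^ 3 * L ^ U * 2 ≤ L ^ 3 * L ^ U * L ^ 7 := by
                  gcongr
                  calc (2 : ℝ) ≤ L ^ 1 := by rw [pow_one]; linarith
                    _ ≤ L ^ 7 := pow_le_pow_right₀ hL1 (by omega)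
              _ = L ^ (U + 10) := by ring
        _ ≤ z := hzl
    have h4z : 4 / (z : ℝ) ≤ q := by
      rw [hq, div_le_div_iff₀ hzp (by positivity), one_mul]
      calc 4 * (32 * L ^ U) = 128 * L ^ U := by ring
        _ ≤ (L ^ 3) * L ^ U := by gcongr; linarith
        _ ≤ L ^ (U + 10) / 2 := by
            rw [le_div_iff₀ (by norm_num)]
            calc L ^ 3 * L ^ U * 2 ≤ L ^ 3 * L ^ U * L ^ 7 := by
                  gcongr
                  calc (2 : ℝ) ≤ L ^ 1 := by rw [pow_one]; linarith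
                    _ ≤ L ^ 7 := pow_le_pow_right₀ hL1 (by omega)
              _ = L ^ (U + 10) := by ring
        _ ≤ z := hzl
    have hT := hcc z (2 ^ (V + 1) / L ^ (V - 1)) hz1
      (htail (disc t) hsq (disc_mem H t ht hsq) hnexc) (by linarith)
    have hPd1 : |Pd t.1 (disc t) 0 z - c| ≤ 6 * q * c := by
      refine hT.trans ?_
      apply mul_le_mul_of_nonneg_right _ hc0.le
      linarith
    obtain ⟨hg1, hg2⟩ := Pg_close t.1 t.2.1 ha0 z hz1 (by linarith)
    rw [← hω] at hg2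
    have hPgpos : 1 ≤ Pg t.1 t.2.1 0 z := Pg_ge _ _ _ _
    set F := q2 t.1 t.2.1 t.2.2 with hF
    set P := Pd t.1 (disc t) 0 z with hP
    set G := Pg t.1 t.2.1 0 z with hG
    set g := Gf t.1 t.2.1 with hg
    have hg0 : 0 < g := by linarith
    have hcg : 0 < c * g := mul_pos hc0 hg0
    have hPG : |P * G - c * g| ≤ 8 * q * (c * g) := by
      have e1 : P * G - c * g = (P - c) * G + c * (G - g) := by ring
      rw [e1]
      have e2 : |G - g| ≤ 2 * q * g := by
        rw [abs_sub_comm, abs_of_nonneg (by linarith)]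
        have e3 : g - G ≤ G * (2 * (ω / z)) := by linarith
        refine e3.trans ?_
        calc G * (2 * (ω / z)) ≤ g * (2 * q) := by gcongr
          _ = 2 * q * g := by ring
      calc |(P - c) * G + c * (G - g)| ≤ |(P - c) * G| + |c * (G - g)| := abs_add_le _ _
        _ = |P - c| * G + c * |G - g| := by
            rw [abs_mul, abs_mul, abs_of_pos hc0, abs_of_pos (by linarith : 0 < G)]
        _ ≤ (6 * q * c) * g + c * (2 * q * g) := by
            gcongr
        _ = 8 * q * (c * g) := by ring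
    have hSS : SS z F = ep t.1 t.2.1 * (P * G) := by
      rw [hF, SS_quad (q2 t.1 t.2.1 t.2.2) t.1 t.2.1 t.2.2 (q2_eval _ _ _) hgcd hpar z hz2]
      rfl
    set e := ep t.1 t.2.1 with he
    have he1 : 1 ≤ e := ep_ge _ _
    set S := e * c * g with hS
    have hSpos : 0 < S := by positivity
    have hSSc : |SS z F - S| ≤ 8 * q * S := by
      rw [hSS, hS]
      have e1 : e * (P * G) - e * c * g = e * (P * G - c * g) := by ring
      rw [e1, abs_mul, abs_of_pos (by linarith : 0 < e)]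
      calc e * |P * G - c * g| ≤ e * (8 * q * (c * g)) := by gcongr
        _ = 8 * q * (e * c * g) := by ring
    have hSSlow : 1 / L ≤ SS z F := by
      rw [hSS]
      have h1 := hPd t.1 (disc t)
      have h2 : 0 < 1 / L := by positivity
      calc 1 / L ≤ P := h1
        _ = 1 * (P * 1) := by ring
        _ ≤ e * (P * G) := by
            have hP0 : 0 ≤ P := h2.le.trans h1
            gcongr
    have hSlow : 1 / (2 * L) ≤ S := by
      have h1 := (abs_le.1 hSSc).2
      have h2 : SS z F ≤ (1 + 8 * q) * S := by linarith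
      have h3 : (1 + 8 * q) * S ≤ 2 * S := by
        apply mul_le_mul_of_nonneg_right _ hSpos.le
        linarith
      have h4 : 1 / (2 * L) = (1 / L) / 2 := by rw [div_div, mul_comm]
      rw [h4]
      linarith
    refine ⟨c, hc0, hclim, hSlow, fun K hK hKH => ?_⟩
    have hK0 : (0 : ℝ) < K := lt_of_lt_of_le (Real.rpow_pos_of_pos hHp _) hK
    have hKleH : K ≤ H := by
      have h1 : 1 ≤ L ^ B := one_le_pow₀ hL1
      have h2 : (K : ℝ) ≤ H := by nlinarith
      exact_mod_cast h2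
    have hlF := hlow t ht hlead K hK hKleH
    rw [← hF] at hlF
    have hlF0 : 0 ≤ lF F K := le_trans (by positivity) hlF
    have hmain := hB1 t ht hn1 K hK hKH
    rw [← hF] at hmain
    have hMT : (K : ℝ) / (16 * L ^ 2) ≤ S * lF F K := by
      calc (K : ℝ) / (16 * L ^ 2) = (1 / (2 * L)) * (K / (8 * L)) := by
            field_simp
            ring
        _ ≤ S * lF F K := by gcongr
    have hfirst : (K : ℝ) / L ^ (U + 4) ≤ (S * lF F K) / (2 * L ^ U) := by
      rw [div_le_div_iff₀ (by positivity) (by positivity)]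
      rw [div_le_iff₀ (by positivity)] at hMT
      calc (K : ℝ) * (2 * L ^ U) ≤ (S * lF F K * (16 * L ^ 2)) * (2 * L ^ U) := by gcongr
        _ = S * lF F K * (32 * (L ^ 2 * L ^ U)) := by ring
        _ ≤ S * lF F K * (L ^ 2 * (L ^ 2 * L ^ U)) := by
            gcongr
            nlinarith
        _ = S * lF F K * L ^ (U + 4) := by ring
    calc |pv F K - S * lF F K| = |(pv F K - SS z F * lF F K) + (SS z F - S) * lF F K| := by
          congr 1; ring
      _ ≤ |pv F K - SS z F * lF F K| + |(SS z F - S) * lF F K| := abs_add_le _ _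
      _ ≤ K / L ^ (U + 4) + (8 * q * S) * lF F K := by
          rw [abs_mul, abs_of_nonneg hlF0]
          gcongr
      _ ≤ (S * lF F K) / (2 * L ^ U) + (S * lF F K) / (2 * L ^ U) := by
          apply add_le_add hfirst
          rw [hq]
          have e1 : 8 * (1 / (32 * L ^ U)) * S * lF F K = (S * lF F K) / (4 * L ^ U) := by
            field_simp
            ring
          rw [e1]
          gcongr
          norm_num
      _ = (S * lF F K) / L ^ U := by
          field_simp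
          norm_num

end Pool.Agent.W80.EC
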